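import Pool.Agent.Lib.AD.All

open Pool.Agent.Lib.MP_3a84e0_co

/-- The inverse theorem for the `U^{s+1}` norm over `F_p^n`, `p > s`, with polynomial bounds. -/
theorem Pool.Agent.Results.MP_3a84e0_co.Full.result (s p : ℕ) [Fact p.Prime] (hs : 3 ≤ s)
    (hp : s < p) :
    ∃ C : ℝ, 1 ≤ C ∧ ∀ (n : ℕ) (δ : ℝ) (f : (Fin n → ZMod p) → ℂ), 0 < δ → δ ≤ 1 →
      (∀ x, ‖f x‖ ≤ 1) → δ ≤ gowersNorm (s + 1) f →
        ∃ ψ : MvPolynomial (Fin n) (ZMod p), ψ.totalDegree ≤ s ∧ C⁻¹ * δ ^ C ≤ corr f ψ :=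
  Pool.Agent.Lib.AD.polyInverse p s (by omega) hp
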